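import Pool.Agent.H.MP_d2b9e5.C

set_option autoImplicit false

namespace Pool.Agent.Results.MP_25ed80_an.NoEmbedding

open Pool.Agent.H.MP_d2b9e5

theorem result :
    ∃ (K : Type) (_ : TopologicalSpace K) (_ : CompactSpace K) (_ : T2Space K),
      (∀ s : Set K, s.Nonempty → ∃ x ∈ s, ∃ U : Set K, IsOpen U ∧ U ∩ s = {x}) ∧
      (∃ (Γ : Type) (h : K → Γ → ℝ), Topology.IsEmbedding h ∧
        Dense (h ⁻¹' {y : Γ → ℝ | {γ : Γ | y γ ≠ 0}.Countable})) ∧
      (∃ e : Set.Iic (Ordinal.omega 1 : Ordinal.{0}) → K, Topology.IsEmbedding e) ∧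
      (∀ L : Set K, Nonempty (L ≃ₜ Set.Iic (Ordinal.omega 1 : Ordinal.{0})) →
        ¬ ∃ E : BoundedContinuousFunction L ℝ →L[ℝ] C(K, ℝ),
          ∀ (f : BoundedContinuousFunction L ℝ) (x : L), E f x = f x) ∧
      ¬ ∃ (T : BoundedContinuousFunction (Set.Iic (Ordinal.omega 1 : Ordinal.{0})) ℝ →L[ℝ] C(K, ℝ))
          (c : ℝ), 0 < c ∧ ∀ g, c * ‖g‖ ≤ ‖T g‖ := by
  obtain ⟨F, hF, hc⟩ := exF Om2
  have hinf : Infinite Om := by
    by_contra hn
    have := not_infinite_iff_finite.1 hn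
    exact Om1 Set.countable_univ
  obtain ⟨I, x, f, -, h2, h3, h4⟩ := hF.mb
  refine ⟨KK F, inferInstance, inferInstance, inferInstance, hF.sc hc, val F, emb hF, ?_, ?_⟩
  · rintro L ⟨e⟩ ⟨E, hE⟩
    refine noemb x f h2 h3 h4 (E.comp (BoundedContinuousFunction.compContinuousCLM ℝ ℝ
      (e : C(L, Set.Iic o1)))) one_pos fun g => ?_
    rw [one_mul]
    refine (BoundedContinuousFunction.norm_le (norm_nonneg _)).2 fun a => ?_
    refine le_trans (le_of_eq ?_) (ContinuousMap.norm_coe_le_norm _ (e.symm a).1)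
    rw [ContinuousLinearMap.comp_apply, hE]
    change _ = ‖g (e (e.symm a))‖
    rw [e.apply_symm_apply]
  · rintro ⟨T, c, h0, hT⟩
    exact noemb x f h2 h3 h4 T h0 hT

end Pool.Agent.Results.MP_25ed80_an.NoEmbedding
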